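import Pool.Agent.Helper85.HAD.Jor
import Pool.Agent.Helper87.HD.Stmts

/-!
# HD, module WIG: linear maps of matrices which send unitary matrices to unitary matrices
-/

set_option autoImplicit false

open Matrix

namespace HD

variable {d : ℕ}

/-- `f` is unital and sends unitary matrices to unitary matrices -/
def WU (f : WM d →ₗ[ℂ] WM d) : Prop :=
  f 1 = 1 ∧ ∀ N : WM d, Nᴴ * N = 1 → (f N)ᴴ * f N = 1

/-- projections -/
def WP (P : WM d) : Prop := Pᴴ = P ∧ P * P = P

theorem wg_unit (P : WM d) (hP : WP P) (z : ℂ) (hz : star z * z = 1) :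
    (1 + (z - 1) • P)ᴴ * (1 + (z - 1) • P) = 1 := by
  have h1 : (1 + (z - 1) • P)ᴴ = 1 + (star z - 1) • P := by
    rw [Matrix.conjTranspose_add, Matrix.conjTranspose_one, Matrix.conjTranspose_smul, hP.1,
      star_sub, star_one]
  rw [h1]
  simp only [Matrix.add_mul, Matrix.mul_add, Matrix.one_mul, Matrix.mul_one, Matrix.smul_mul,
    Matrix.mul_smul, hP.2]
  rw [smul_add, smul_smul, add_assoc, ← add_smul, ← add_smul]
  have h2 : star z - 1 + (z - 1 + (z - 1) * (star z - 1)) = 0 := by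
    linear_combination hz
  rw [h2, zero_smul, add_zero]

theorem wg_proj {f : WM d →ₗ[ℂ] WM d} (h : WU f) (P : WM d) (hP : WP P) : WP (f P) := by
  have key : ∀ z : ℂ, star z * z = 1 →
      (z - 1) • f P + (star z - 1) • (f P)ᴴ + ((star z - 1) * (z - 1)) • ((f P)ᴴ * f P) = 0 := by
    intro z hz
    have h1 := h.2 _ (wg_unit P hP z hz)
    rw [map_add, map_smul, h.1, Matrix.conjTranspose_add, Matrix.conjTranspose_one,
      Matrix.conjTranspose_smul, star_sub, star_one] at h1
    simp only [Matrix.add_mul, Matrix.mul_add, Matrix.one_mul, Matrix.mul_one, Matrix.smul_mul,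
      Matrix.mul_smul] at h1
    rw [smul_add, smul_smul] at h1
    have h2 : (z - 1) • f P + (star z - 1) • (f P)ᴴ +
        ((star z - 1) * (z - 1)) • ((f P)ᴴ * f P) = (1 + (star z - 1) • (f P)ᴴ +
        ((z - 1) • f P + ((z - 1) * (star z - 1)) • ((f P)ᴴ * f P))) - 1 := by
      rw [mul_comm (star z - 1)]
      abel
    rw [h2, h1, sub_self]
  have k1 := key (-1) (by simp)
  have k2 := key Complex.I (by simp)
  have e1 : ∀ a b, (f P) a b = (f P)ᴴ a b := by
    intro a b
    have h1 := congrFun (congrFun k1 a) b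
    have h2 := congrFun (congrFun k2 a) b
    simp only [Matrix.add_apply, Matrix.smul_apply, smul_eq_mul, Matrix.zero_apply, star_neg,
      star_one, Complex.star_def, Complex.conj_I] at h1 h2
    linear_combination (-Complex.I) * h2 + (Complex.I / 2) * h1 +
      (f P a b - (f P)ᴴ a b - Complex.I * ((f P)ᴴ * f P) a b) * Complex.I_mul_I
  have e2 : ∀ a b, ((f P)ᴴ * f P) a b = (f P) a b := by
    intro a b
    have h1 := congrFun (congrFun k1 a) b
    simp only [Matrix.add_apply, Matrix.smul_apply, smul_eq_mul, Matrix.zero_apply, star_neg,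
      star_one] at h1
    linear_combination (1 / 4) * h1 - (1 / 2) * e1 a b
  have e3 : (f P)ᴴ = f P := by
    ext a b
    exact (e1 a b).symm
  refine ⟨e3, ?_⟩
  have e4 : (f P)ᴴ * f P = f P := by
    ext a b
    exact e2 a b
  rw [e3] at e4
  exact e4

theorem wg_orth {f : WM d →ₗ[ℂ] WM d} (h : WU f) (P P' : WM d) (hP : WP P) (hP' : WP P')
    (h1 : P * P' = 0) (h2 : P' * P = 0) : f P * f P' = 0 := by
  have hs : WP (P + P') := by
    refine ⟨by rw [Matrix.conjTranspose_add, hP.1, hP'.1], ?_⟩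
    rw [Matrix.add_mul, Matrix.mul_add, Matrix.mul_add, hP.2, hP'.2, h1, h2]
    abel
  have k := (wg_proj h _ hs).2
  have kP := (wg_proj h _ hP).2
  have kP' := (wg_proj h _ hP').2
  rw [map_add, Matrix.add_mul, Matrix.mul_add, Matrix.mul_add, kP, kP'] at k
  have k1 : f P * f P' + f P' * f P = 0 := by
    have : f P * f P' + f P' * f P = (f P + f P * f P' + (f P' * f P + f P')) - (f P + f P') := by
      abel
    rw [this, k, sub_self]
  have k2 : f P * f P' + f P * f P' * f P = 0 := by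
    have h3 := congrArg (fun m => f P * m) k1
    simp only [Matrix.mul_add, Matrix.mul_zero] at h3
    rw [← Matrix.mul_assoc, kP, ← Matrix.mul_assoc] at h3
    exact h3
  have k3 : f P * f P' * f P + f P' * f P = 0 := by
    have h3 := congrArg (fun m => m * f P) k1
    simp only [Matrix.add_mul, Matrix.zero_mul] at h3
    rw [Matrix.mul_assoc (f P') (f P) (f P), kP] at h3
    exact h3
  apply wg_half
  rw [add_zero]
  have : f P * f P' + f P * f P' = (f P * f P' + f P' * f P) + (f P * f P' + f P * f P' * f P) -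
      (f P * f P' * f P + f P' * f P) := by
    abel
  rw [this, k1, k2, k3, add_zero, sub_zero]

theorem wg_sum_sq {ι : Type} [Fintype ι] [DecidableEq ι] (P : ι → WM d) (c : ι → ℂ)
    (h1 : ∀ i, P i * P i = P i) (h2 : ∀ i j, i ≠ j → P i * P j = 0) :
    (∑ i, c i • P i) * (∑ i, c i • P i) = ∑ i, (c i * c i) • P i := by
  rw [Finset.sum_mul]
  refine Finset.sum_congr rfl fun i _ => ?_
  rw [Finset.mul_sum, Finset.sum_eq_single i]
  · rw [Matrix.smul_mul, Matrix.mul_smul, smul_smul, h1]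
  · intro j _ hj
    rw [Matrix.smul_mul, Matrix.mul_smul, h2 i j hj.symm, smul_zero, smul_zero]
  · intro hh; exact absurd (Finset.mem_univ _) hh

/-- Hermitian matrices -/
theorem wg_herm {f : WM d →ₗ[ℂ] WM d} (h : WU f) (H : WM d) (hH : Hᴴ = H) :
    (f H)ᴴ = f H ∧ f (H * H) = f H * f H := by
  have hh : H.IsHermitian := hH
  set U : WM d := (hh.eigenvectorUnitary : WM d) with hU
  have hU1 : Uᴴ * U = 1 := by
    have := (Matrix.mem_unitaryGroup_iff'.mp hh.eigenvectorUnitary.2)
    exact this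
  have hspec : H = U * Matrix.diagonal (fun i => (hh.eigenvalues i : ℂ)) * Uᴴ := by
    have := hh.spectral_theorem
    conv_lhs => rw [this]
    rfl
  let P : Fin d → WM d := fun i => U * Matrix.single i i 1 * Uᴴ
  have hPP : ∀ i j, P i * P j = U * (Matrix.single i i 1 * Matrix.single j j 1) * Uᴴ := by
    intro i j
    calc P i * P j = U * Matrix.single i i 1 * (Uᴴ * U) * Matrix.single j j 1 * Uᴴ := by
          simp only [P, Matrix.mul_assoc]
      _ = _ := by rw [hU1, Matrix.mul_one]; simp only [Matrix.mul_assoc]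
  have hP2 : ∀ i, P i * P i = P i := by
    intro i
    rw [hPP, Matrix.single_mul_single_same, mul_one]
  have hPz : ∀ i j, i ≠ j → P i * P j = 0 := by
    intro i j hij
    rw [hPP, Matrix.single_mul_single_of_ne _ _ _ _ hij, Matrix.mul_zero, Matrix.zero_mul]
  have hPs : ∀ i, (P i)ᴴ = P i := by
    intro i
    simp only [P, Matrix.conjTranspose_mul, Matrix.conjTranspose_conjTranspose,
      Matrix.conjTranspose_single, star_one, Matrix.mul_assoc]
  have hWP : ∀ i, WP (P i) := fun i => ⟨hPs i, hP2 i⟩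
  have hH2 : H = ∑ i, (hh.eigenvalues i : ℂ) • P i := by
    conv_lhs => rw [hspec, ← Matrix.sum_single_eq_diagonal]
    rw [Matrix.mul_sum, Matrix.sum_mul]
    refine Finset.sum_congr rfl fun i _ => ?_
    have : (Matrix.single i i ((hh.eigenvalues i : ℝ) : ℂ) : WM d) =
        (hh.eigenvalues i : ℂ) • Matrix.single i i 1 := by
      rw [Matrix.smul_single, smul_eq_mul, mul_one]
    rw [this, Matrix.mul_smul, Matrix.smul_mul]
  have hf : f H = ∑ i, (hh.eigenvalues i : ℂ) • f (P i) := by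
    conv_lhs => rw [hH2]
    rw [map_sum]
    exact Finset.sum_congr rfl fun i _ => map_smul _ _ _
  constructor
  · rw [hf, Matrix.conjTranspose_sum]
    refine Finset.sum_congr rfl fun i _ => ?_
    rw [Matrix.conjTranspose_smul, (wg_proj h _ (hWP i)).1, Complex.star_def, Complex.conj_ofReal]
  · have e1 : H * H = ∑ i, ((hh.eigenvalues i : ℂ) * (hh.eigenvalues i : ℂ)) • P i := by
      rw [← wg_sum_sq P (fun i => (hh.eigenvalues i : ℂ)) hP2 hPz, ← hH2]
    have e2 : f H * f H = ∑ i, ((hh.eigenvalues i : ℂ) * (hh.eigenvalues i : ℂ)) • f (P i) := by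
      rw [hf]
      exact wg_sum_sq (fun i => f (P i)) (fun i => (hh.eigenvalues i : ℂ))
        (fun i => (wg_proj h _ (hWP i)).2)
        (fun i j hij => wg_orth h _ _ (hWP i) (hWP j) (hPz i j hij) (hPz j i hij.symm))
    rw [e2, e1, map_sum]
    exact Finset.sum_congr rfl fun i _ => map_smul _ _ _

theorem wg_split (X : WM d) : ∃ H K : WM d, Hᴴ = H ∧ Kᴴ = K ∧ X = H + Complex.I • K := by
  refine ⟨(1 / 2 : ℂ) • (X + Xᴴ), (1 / 2 : ℂ) • ((-Complex.I) • (X - Xᴴ)), ?_, ?_, ?_⟩
  · rw [Matrix.conjTranspose_smul, Matrix.conjTranspose_add, Matrix.conjTranspose_conjTranspose,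
      add_comm]
    congr 1
    simp
  · rw [Matrix.conjTranspose_smul, Matrix.conjTranspose_smul, Matrix.conjTranspose_sub,
      Matrix.conjTranspose_conjTranspose]
    have h1 : star (1 / 2 : ℂ) = 1 / 2 := by simp
    have h2 : star (-Complex.I) = Complex.I := by simp
    rw [h1, h2]
    congr 1
    rw [neg_smul, ← smul_neg, neg_sub]
  · rw [smul_smul, smul_smul]
    have h1 : Complex.I * (1 / 2 * -Complex.I) = 1 / 2 := by
      linear_combination (-(1 / 2) : ℂ) * Complex.I_mul_I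
    rw [← smul_smul, ← smul_smul]
    have h3 : Complex.I • (1 / 2 : ℂ) • (-Complex.I) • (X - Xᴴ) = (1 / 2 : ℂ) • (X - Xᴴ) := by
      rw [smul_smul, smul_smul]
      have h4 : Complex.I * (1 / 2) * -Complex.I = 1 / 2 := by
        linear_combination (-(1 / 2) : ℂ) * Complex.I_mul_I
      rw [h4]
    rw [h3, ← smul_add]
    have h5 : X + Xᴴ + (X - Xᴴ) = (2 : ℂ) • X := by
      rw [two_smul]; abel
    rw [h5, smul_smul]
    norm_num

theorem wg_star {f : WM d →ₗ[ℂ] WM d} (h : WU f) (X : WM d) : f Xᴴ = (f X)ᴴ := by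
  obtain ⟨H, K, hH, hK, rfl⟩ := wg_split X
  rw [Matrix.conjTranspose_add, Matrix.conjTranspose_smul, hH, hK, map_add, map_smul, map_add,
    map_smul, Matrix.conjTranspose_add, Matrix.conjTranspose_smul, (wg_herm h H hH).1,
    (wg_herm h K hK).1]

theorem wg_wj {f : WM d →ₗ[ℂ] WM d} (h : WU f) : WJ f := by
  have h1 : ∀ H K : WM d, Hᴴ = H → Kᴴ = K → f (H * K + K * H) = f H * f K + f K * f H := by
    intro H K hH hK
    have e1 := (wg_herm h (H + K) (by rw [Matrix.conjTranspose_add, hH, hK])).2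
    have e2 := (wg_herm h H hH).2
    have e3 := (wg_herm h K hK).2
    have e4 : H * K + K * H = (H + K) * (H + K) - H * H - K * K := by
      noncomm_ring
    rw [e4, map_sub, map_sub, e1, e2, e3, map_add]
    noncomm_ring
  have h2 : ∀ X K : WM d, Kᴴ = K → f (X * K + K * X) = f X * f K + f K * f X := by
    intro X K hK
    obtain ⟨H, L, hH, hL, rfl⟩ := wg_split X
    have e1 : (H + Complex.I • L) * K + K * (H + Complex.I • L) =
        (H * K + K * H) + Complex.I • (L * K + K * L) := by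
      rw [Matrix.add_mul, Matrix.mul_add, Matrix.smul_mul, Matrix.mul_smul, smul_add]
      abel
    rw [e1, map_add, map_smul, h1 H K hH hK, h1 L K hL hK, map_add, map_smul, Matrix.add_mul,
      Matrix.mul_add, Matrix.smul_mul, Matrix.mul_smul, smul_add]
    abel
  intro X Y
  obtain ⟨H, L, hH, hL, rfl⟩ := wg_split Y
  have e1 : X * (H + Complex.I • L) + (H + Complex.I • L) * X =
      (X * H + H * X) + Complex.I • (X * L + L * X) := by
    rw [Matrix.add_mul, Matrix.mul_add, Matrix.smul_mul, Matrix.mul_smul, smul_add]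
    abel
  rw [e1, map_add, map_smul, h2 X H hH, h2 X L hL, map_add, map_smul, Matrix.add_mul,
    Matrix.mul_add, Matrix.smul_mul, Matrix.mul_smul, smul_add]
  abel

/-- multiplicative case -/
theorem wg_hom {f : WM d →ₗ[ℂ] WM d} (h1 : f 1 = 1) (hm : ∀ X Y, f (X * Y) = f X * f Y)
    (hs : ∀ X, f Xᴴ = (f X)ᴴ) : ∃ T : WM d, Tᴴ * T = 1 ∧ ∀ N, f N = T * N * Tᴴ := by
  rcases Nat.eq_zero_or_pos d with hd | hd
  · subst hd
    exact ⟨1, Subsingleton.elim _ _, fun N => Subsingleton.elim _ _⟩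
  let o : Fin d := ⟨0, hd⟩
  set Q : WM d := f (Matrix.single o o 1) with hQ
  have hinj : ∀ X, f X = 0 → X = 0 := wg_inj (fun X Y => by rw [map_add, hm, hm]) h1
  have hQ0 : Q ≠ 0 := by
    intro h0
    have h2 := hinj _ h0
    have h3 := congrFun (congrFun h2 o) o
    rw [Matrix.single_apply_same, Matrix.zero_apply] at h3
    exact one_ne_zero h3
  obtain ⟨i₀, j₀, hij⟩ : ∃ i j, Q i j ≠ 0 := by
    by_contra hc
    push Not at hc
    apply hQ0
    ext i k
    exact hc i k
  have hQQ : Q * Q = Q := by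
    rw [hQ, ← hm, Matrix.single_mul_single_same, mul_one]
  let v : Fin d → ℂ := fun i => Q i j₀
  have hQv : Q *ᵥ v = v := by
    funext i
    have := congrFun (congrFun hQQ i) j₀
    rw [Matrix.mul_apply] at this
    exact this
  let s : ℝ := ∑ i, ‖v i‖ ^ 2
  have hs0 : 0 < s := by
    refine lt_of_lt_of_le ?_ (Finset.single_le_sum (f := fun i => ‖v i‖ ^ 2)
      (fun i _ => by positivity) (Finset.mem_univ i₀))
    have : 0 < ‖v i₀‖ := norm_pos_iff.mpr hij
    positivity
  have hvv : star v ⬝ᵥ v = (s : ℂ) := by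
    simp only [dotProduct, Pi.star_apply, s, Complex.ofReal_sum, Complex.ofReal_pow]
    refine Finset.sum_congr rfl fun i _ => ?_
    rw [Complex.star_def, Complex.conj_mul']
  -- the unitary matrix, up to a factor
  let R : WM d := Matrix.of fun i j => (f (Matrix.single j o 1) *ᵥ v) i
  have hR : ∀ N : WM d, f N * R = R * N := by
    intro N
    ext i j
    have e1 : (f N * R) i j = (f N *ᵥ (f (Matrix.single j o 1) *ᵥ v)) i := rfl
    rw [e1, Matrix.mulVec_mulVec, ← hm]
    have e2 : N * Matrix.single j o 1 = ∑ k, N k j • Matrix.single k o (1 : ℂ) := by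
      ext a b
      rw [Matrix.sum_apply, Matrix.mul_apply]
      simp only [Matrix.smul_apply, Matrix.single_apply, smul_eq_mul, mul_ite, mul_one, mul_zero]
      by_cases hb : o = b
      · simp [hb]
      · simp [hb]
    rw [e2, map_sum, Matrix.sum_mulVec, Finset.sum_apply, Matrix.mul_apply]
    refine Finset.sum_congr rfl fun k _ => ?_
    rw [map_smul, Matrix.smul_mulVec, Pi.smul_apply, smul_eq_mul, mul_comm]
    rfl
  have hRR : Rᴴ * R = (s : ℂ) • 1 := by
    ext i j
    have e1 : (Rᴴ * R) i j = star (f (Matrix.single i o 1) *ᵥ v) ⬝ᵥ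
        (f (Matrix.single j o 1) *ᵥ v) := by
      rw [Matrix.mul_apply]
      rfl
    rw [e1, Matrix.star_mulVec, ← Matrix.dotProduct_mulVec, Matrix.mulVec_mulVec, ← hs, ← hm,
      Matrix.conjTranspose_single, star_one]
    by_cases h2 : i = j
    · subst h2
      rw [Matrix.single_mul_single_same, mul_one, ← hQ, hQv, hvv, Matrix.smul_apply,
        Matrix.one_apply_eq, smul_eq_mul, mul_one]
    · rw [Matrix.single_mul_single_of_ne _ _ _ _ h2, map_zero, Matrix.zero_mulVec,
        dotProduct_zero, Matrix.smul_apply, Matrix.one_apply_ne h2, smul_zero]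
  let c : ℂ := ((Real.sqrt s)⁻¹ : ℝ)
  have hc : star c * c * s = 1 := by
    have e1 : Real.sqrt s * Real.sqrt s = s := Real.mul_self_sqrt hs0.le
    have e2 : Real.sqrt s ≠ 0 := (Real.sqrt_pos.mpr hs0).ne'
    have e3 : (Real.sqrt s)⁻¹ * (Real.sqrt s)⁻¹ * s = 1 := by
      rw [← mul_inv, e1, inv_mul_cancel₀ hs0.ne']
    have e4 : star c = c := by
      rw [Complex.star_def, Complex.conj_ofReal]
    rw [e4]
    simp only [c]
    exact_mod_cast e3
  have hT : (c • R)ᴴ * (c • R) = 1 := by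
    rw [Matrix.conjTranspose_smul, Matrix.smul_mul, Matrix.mul_smul, hRR, smul_smul, smul_smul,
      hc, one_smul]
  refine ⟨c • R, hT, fun N => ?_⟩
  have hT' : (c • R) * (c • R)ᴴ = 1 := mul_eq_one_comm.mp hT
  calc f N = f N * ((c • R) * (c • R)ᴴ) := by rw [hT', Matrix.mul_one]
    _ = (f N * (c • R)) * (c • R)ᴴ := by rw [Matrix.mul_assoc]
    _ = (c • R) * N * (c • R)ᴴ := by
        rw [Matrix.mul_smul, hR, Matrix.smul_mul, Matrix.smul_mul, Matrix.smul_mul]

/-- WIG -/
theorem st_WIG : ST_WIG := by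
  intro d φ hφ
  have hφ1 : φ 1 ∈ Matrix.unitaryGroup (Fin d) ℂ := hφ 1 (one_mem _)
  have h1 : (φ 1)ᴴ * φ 1 = 1 := Matrix.mem_unitaryGroup_iff'.mp hφ1
  have h1' : φ 1 * (φ 1)ᴴ = 1 := Matrix.mem_unitaryGroup_iff.mp hφ1
  let f : WM d →ₗ[ℂ] WM d := (LinearMap.mulLeft ℂ ((φ 1)ᴴ)).comp φ
  have hf : ∀ N, f N = (φ 1)ᴴ * φ N := fun N => rfl
  have hφf : ∀ N, φ N = φ 1 * f N := by
    intro N
    rw [hf, ← Matrix.mul_assoc, h1', Matrix.one_mul]
  have hWU : WU f := by
    refine ⟨h1, ?_⟩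
    intro N hN
    have h2 : (φ N)ᴴ * φ N = 1 :=
      Matrix.mem_unitaryGroup_iff'.mp (hφ N (Matrix.mem_unitaryGroup_iff'.mpr hN))
    calc (f N)ᴴ * f N = (φ N)ᴴ * (φ 1 * (φ 1)ᴴ) * φ N := by
          rw [hf, Matrix.conjTranspose_mul, Matrix.conjTranspose_conjTranspose]
          simp only [Matrix.mul_assoc]
      _ = 1 := by rw [h1', Matrix.mul_one, h2]
  have hmem : ∀ T : WM d, Tᴴ * T = 1 → φ 1 * T ∈ Matrix.unitaryGroup (Fin d) ℂ ∧
      Tᴴ ∈ Matrix.unitaryGroup (Fin d) ℂ := by
    intro T hT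
    have h3 : T ∈ Matrix.unitaryGroup (Fin d) ℂ := Matrix.mem_unitaryGroup_iff'.mpr hT
    exact ⟨mul_mem hφ1 h3, Unitary.star_mem h3⟩
  rcases wg_jordan (wg_wj hWU) hWU.1 with hm | hm
  · obtain ⟨T, hT, hN⟩ := wg_hom hWU.1 hm (wg_star hWU)
    refine ⟨φ 1 * T, (hmem T hT).1, Tᴴ, (hmem T hT).2, Or.inl fun N => ?_⟩
    rw [hφf, hN]
    simp only [Matrix.mul_assoc]
  · let g : WM d →ₗ[ℂ] WM d :=
      f.comp (Matrix.transposeLinearEquiv (Fin d) (Fin d) ℂ ℂ).toLinearMap
    have hg : ∀ N, g N = f N.transpose := fun N => rfl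
    obtain ⟨T, hT, hN⟩ := wg_hom (f := g) (by rw [hg, Matrix.transpose_one, hWU.1])
      (fun X Y => by rw [hg, hg, hg, Matrix.transpose_mul, hm])
      (fun X => by
        rw [hg, hg, ← wg_star hWU]
        congr 1)
    refine ⟨φ 1 * T, (hmem T hT).1, Tᴴ, (hmem T hT).2, Or.inr fun N => ?_⟩
    have h4 : f N = g N.transpose := by rw [hg, Matrix.transpose_transpose]
    rw [hφf, h4, hN]
    simp only [Matrix.mul_assoc]

end HD
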