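import Mathlib

/-!
# Jordan homomorphisms of matrix algebras

A linear map `f` of `M_d(ℂ)` with `f (XY + YX) = f X f Y + f Y f X` and `f 1 = 1` is a homomorphism or
an antihomomorphism (Herstein, Smiley).
-/

set_option autoImplicit false

open Matrix

namespace HD

/-- square matrices -/
abbrev WM (d : ℕ) : Type := Matrix (Fin d) (Fin d) ℂ

variable {d : ℕ}

theorem wg_half {x y : WM d} (h : x + x = y + y) : x = y := by
  rw [← two_smul ℂ, ← two_smul ℂ] at h
  exact smul_right_injective (WM d) (two_ne_zero (α := ℂ)) h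

/-- Jordan homomorphisms -/
def WJ (f : WM d →ₗ[ℂ] WM d) : Prop := ∀ X Y : WM d, f (X * Y + Y * X) = f X * f Y + f Y * f X

theorem wg_sq {f : WM d →ₗ[ℂ] WM d} (h : WJ f) (X : WM d) : f (X * X) = f X * f X := by
  apply wg_half
  rw [← map_add]
  exact h X X

theorem wg_a {f : WM d →ₗ[ℂ] WM d} (h : WJ f) (X Y : WM d) :
    f (X * Y * X) = f X * f Y * f X := by
  apply wg_half
  have h1 : X * Y * X + X * Y * X = (X * (X * Y + Y * X) + (X * Y + Y * X) * X) -
      ((X * X) * Y + Y * (X * X)) := by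
    noncomm_ring
  rw [← map_add, h1, map_sub, h, h, h, wg_sq h]
  noncomm_ring

theorem wg_b {f : WM d →ₗ[ℂ] WM d} (h : WJ f) (X Y Z : WM d) :
    f (X * Y * Z + Z * Y * X) = f X * f Y * f Z + f Z * f Y * f X := by
  have h1 : X * Y * Z + Z * Y * X = (X + Z) * Y * (X + Z) - X * Y * X - Z * Y * Z := by
    noncomm_ring
  rw [h1, map_sub, map_sub, wg_a h, wg_a h, wg_a h, map_add]
  noncomm_ring

/-- Smiley's identity -/
theorem wg_d {f : WM d →ₗ[ℂ] WM d} (h : WJ f) (X Y Z : WM d) :
    (f (X * Y) - f X * f Y) * f Z * (f (X * Y) - f Y * f X) +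
      (f (X * Y) - f Y * f X) * f Z * (f (X * Y) - f X * f Y) = 0 := by
  have e1 : f (X * (Y * Z * Y) * X) = f X * (f Y * f Z * f Y) * f X := by
    rw [wg_a h, wg_a h]
  have e2 : f (Y * (X * Z * X) * Y) = f Y * (f X * f Z * f X) * f Y := by
    rw [wg_a h, wg_a h]
  have e3 := wg_b h (X * Y) Z (Y * X)
  have e4 : f (Y * X) = f X * f Y + f Y * f X - f (X * Y) := by
    rw [← h X Y, map_add]
    abel
  have e5 : (X * Y) * Z * (Y * X) + (Y * X) * Z * (X * Y) =
      X * (Y * Z * Y) * X + Y * (X * Z * X) * Y := by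
    noncomm_ring
  rw [e5, map_add, e1, e2, e4] at e3
  have e6 : (f (X * Y) - f X * f Y) * f Z * (f (X * Y) - f Y * f X) +
      (f (X * Y) - f Y * f X) * f Z * (f (X * Y) - f X * f Y) =
      (f X * (f Y * f Z * f Y) * f X + f Y * (f X * f Z * f X) * f Y) -
      (f (X * Y) * f Z * (f X * f Y + f Y * f X - f (X * Y)) +
        (f X * f Y + f Y * f X - f (X * Y)) * f Z * f (X * Y)) := by
    noncomm_ring
  rw [e6, e3, sub_self]

theorem wg_ent (P Q : WM d) (h : ∀ Z : WM d, P * Z * Q + Q * Z * P = 0) : P = 0 ∨ Q = 0 := by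
  have key : ∀ i k l j, P i k * Q l j + Q i k * P l j = 0 := by
    intro i k l j
    have h1 := congrFun (congrFun (h (Matrix.single k l 1)) i) j
    have h2 : ∀ A B : WM d, (A * (Matrix.single k l (1 : ℂ) : WM d) * B : WM d) i j =
        A i k * B l j := by
      intro A B
      rw [Matrix.mul_assoc, Matrix.mul_apply, Finset.sum_eq_single k]
      · rw [Matrix.mul_apply, Finset.sum_eq_single l]
        · simp
        · intro b _ hb
          rw [Matrix.single_apply, if_neg (fun hh => hb hh.2.symm), zero_mul]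
        · intro hh; exact absurd (Finset.mem_univ _) hh
      · intro b _ hb
        rw [Matrix.mul_apply, Finset.sum_eq_zero, mul_zero]
        intro c _
        rw [Matrix.single_apply, if_neg (fun hh => hb hh.1.symm), zero_mul]
      · intro hh; exact absurd (Finset.mem_univ _) hh
    rw [Matrix.add_apply, h2, h2] at h1
    exact h1
  by_contra hcon
  push Not at hcon
  obtain ⟨hP, hQ⟩ := hcon
  apply hQ
  obtain ⟨i, k, hik⟩ : ∃ i k, P i k ≠ 0 := by
    by_contra hc
    push Not at hc
    apply hP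
    ext i k
    exact hc i k
  have h0 : Q i k = 0 := by
    have h1 := key i k i k
    have h2 : P i k * Q i k = 0 := by
      have h3 : P i k * Q i k + P i k * Q i k = 0 := by
        rw [mul_comm (Q i k)] at h1
        exact h1
      exact add_self_eq_zero.mp h3
    exact (mul_eq_zero.mp h2).resolve_left hik
  ext l j
  have h1 := key i k l j
  rw [h0, zero_mul, add_zero] at h1
  exact (mul_eq_zero.mp h1).resolve_left hik

theorem wg_inj {f : WM d →ₗ[ℂ] WM d} (h : WJ f) (h1 : f 1 = 1) (X : WM d) (hX : f X = 0) :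
    X = 0 := by
  by_contra hne
  obtain ⟨i, j, hij⟩ : ∃ i j, X i j ≠ 0 := by
    by_contra hc
    push Not at hc
    apply hne
    ext i k
    exact hc i k
  have e1 : (Matrix.single j i (1 : ℂ) : WM d) * X * Matrix.single j i 1 =
      X i j • Matrix.single j i (1 : ℂ) := by
    ext a b
    rw [Matrix.mul_apply, Finset.sum_eq_single j]
    · rw [Matrix.mul_apply, Finset.sum_eq_single i]
      · simp only [Matrix.single_apply, Matrix.smul_apply, smul_eq_mul, true_and, and_true]
        split_ifs with h1 h2 h3 <;> simp_all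
      · intro c _ hc
        rw [Matrix.single_apply, if_neg (fun hh => hc hh.2.symm), zero_mul]
      · intro hh; exact absurd (Finset.mem_univ _) hh
    · intro c _ hc
      rw [Matrix.single_apply (i := j) (i' := c), if_neg (fun hh => hc hh.1.symm), mul_zero]
    · intro hh; exact absurd (Finset.mem_univ _) hh
  have e2 : f (Matrix.single j i (1 : ℂ)) = 0 := by
    have h3 := wg_a h (Matrix.single j i (1 : ℂ)) X
    rw [e1, hX, mul_zero, zero_mul, map_smul] at h3
    exact (smul_eq_zero.mp h3).resolve_left hij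
  have e3 : ∀ k, f (Matrix.single k k (1 : ℂ)) = 0 := by
    intro k
    have h3 := wg_b h (Matrix.single k j (1 : ℂ)) (Matrix.single j i (1 : ℂ))
      (Matrix.single i k (1 : ℂ))
    rw [e2, mul_zero, zero_mul, mul_zero, zero_mul, add_zero, Matrix.single_mul_single_same,
      Matrix.single_mul_single_same, mul_one, mul_one] at h3
    by_cases hc : i = j ∧ i = k
    · obtain ⟨rfl, rfl⟩ := hc
      exact e2
    · have h4 : (Matrix.single i k (1 : ℂ) : WM d) * Matrix.single j i 1 * Matrix.single k j 1 =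
          0 := by
        by_cases hkj : k = j
        · by_cases hik : i = k
          · exact absurd ⟨hik.trans hkj, hik⟩ hc
          · rw [Matrix.mul_assoc, Matrix.single_mul_single_of_ne _ _ _ _ hik, mul_zero]
        · rw [Matrix.single_mul_single_of_ne _ _ _ _ hkj, zero_mul]
      rw [h4, add_zero] at h3
      exact h3
  have e4 : f (1 : WM d) = 0 := by
    have h5 : (1 : WM d) = ∑ k, Matrix.single k k (1 : ℂ) := by
      rw [← Matrix.diagonal_one, ← Matrix.sum_single_eq_diagonal]
    rw [h5, map_sum]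
    exact Finset.sum_eq_zero fun k _ => e3 k
  rw [h1] at e4
  apply hij
  have h6 := congrFun (congrFun e4 i) i
  rw [Matrix.one_apply_eq, Matrix.zero_apply] at h6
  exact absurd h6 one_ne_zero

/-- Herstein's theorem for matrices -/
theorem wg_jordan {f : WM d →ₗ[ℂ] WM d} (h : WJ f) (h1 : f 1 = 1) :
    (∀ X Y, f (X * Y) = f X * f Y) ∨ (∀ X Y, f (X * Y) = f Y * f X) := by
  have hsurj : Function.Surjective f := by
    rw [← LinearMap.injective_iff_surjective]
    rw [← LinearMap.ker_eq_bot, LinearMap.ker_eq_bot']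
    exact wg_inj h h1
  have hor : ∀ X Y, f (X * Y) = f X * f Y ∨ f (X * Y) = f Y * f X := by
    intro X Y
    rcases wg_ent (f (X * Y) - f X * f Y) (f (X * Y) - f Y * f X) (by
      intro Z
      obtain ⟨Z', rfl⟩ := hsurj Z
      exact wg_d h X Y Z') with h2 | h2
    · exact Or.inl (sub_eq_zero.mp h2)
    · exact Or.inr (sub_eq_zero.mp h2)
  have hor2 : ∀ X, (∀ Y, f (X * Y) = f X * f Y) ∨ (∀ Y, f (X * Y) = f Y * f X) := by
    intro X
    by_contra hcon
    push Not at hcon
    obtain ⟨⟨Y₁, hY₁⟩, Y₂, hY₂⟩ := hcon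
    have e1 := (hor X Y₁).resolve_left hY₁
    have e2 := (hor X Y₂).resolve_right hY₂
    rcases hor X (Y₁ + Y₂) with e3 | e3
    · rw [mul_add, map_add, map_add, e2, mul_add, add_left_inj] at e3
      exact hY₁ e3
    · rw [mul_add, map_add, map_add, e1, add_mul, add_right_inj] at e3
      exact hY₂ e3
  by_contra hcon
  push Not at hcon
  obtain ⟨⟨X₁, hX₁⟩, X₂, hX₂⟩ := hcon
  have e1 : ∀ Y, f (X₁ * Y) = f Y * f X₁ := by
    rcases hor2 X₁ with h2 | h2
    · obtain ⟨Y, hY⟩ := hX₁
      exact absurd (h2 Y) hY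
    · exact h2
  have e2 : ∀ Y, f (X₂ * Y) = f X₂ * f Y := by
    rcases hor2 X₂ with h2 | h2
    · exact h2
    · obtain ⟨Y, hY⟩ := hX₂
      exact absurd (h2 Y) hY
  obtain ⟨Y₁, hY₁⟩ := hX₁
  obtain ⟨Y₂, hY₂⟩ := hX₂
  rcases hor2 (X₁ + X₂) with h2 | h2
  · have h3 := h2 Y₁
    rw [add_mul, map_add, map_add, e2, add_mul, add_left_inj] at h3
    exact hY₁ h3
  · have h3 := h2 Y₂
    rw [add_mul, map_add, map_add, e1, mul_add, add_right_inj] at h3
    exact hY₂ h3

end HD
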